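import Mathlib
import Pool.Agent.Helper74.CO.Goals

/-!
Packet CO-COR (project of helper74, MP_c5396e_co): correlations of the functions
`χ (x - s) χ⁻¹ (x - t)`.
-/

set_option autoImplicit false

open Pool.Agent.Helper74.CO

namespace Pool.Agent.Helper13.CO

section
variable {F : Type} [Field F] [Fintype F] [DecidableEq F]

set_option linter.unusedSectionVars false

theorem inv_mul_apply (χ : MulChar F ℂ) {x : F} (hx : x ≠ 0) : χ⁻¹ x * χ x = 1 := by
  rw [← MulChar.mul_apply, MulChar.inv_mul, MulChar.one_apply (isUnit_iff_ne_zero.2 hx)]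

theorem conj_apply (χ : MulChar F ℂ) (x : F) : (starRingEnd ℂ) (χ x) = χ⁻¹ x :=
  MulChar.star_apply' χ x

theorem conj_inv_apply (χ : MulChar F ℂ) (x : F) : (starRingEnd ℂ) (χ⁻¹ x) = χ x := by
  rw [← conj_apply, Complex.conj_conj]

theorem norm_one (χ : MulChar F ℂ) {x : F} (hx : x ≠ 0) : ‖χ x‖ = 1 := by
  have h := inv_mul_apply χ hx
  rw [← conj_apply, mul_comm, Complex.mul_conj] at h
  have h2 : Complex.normSq (χ x) = 1 := by exact_mod_cast h
  rw [Complex.normSq_eq_norm_sq] at h2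
  nlinarith [norm_nonneg (χ x)]

theorem norm_le (χ : MulChar F ℂ) (x : F) : ‖χ x‖ ≤ 1 := by
  by_cases hx : x = 0
  · rw [hx, MulChar.map_zero, norm_zero]
    exact zero_le_one
  · exact (norm_one χ hx).le

theorem card_bound : (1 : ℝ) ≤ Fintype.card F * √(Fintype.card F) := by
  have h : (1 : ℝ) ≤ Fintype.card F := by exact_mod_cast Fintype.card_pos
  have h2 : (1 : ℝ) ≤ √(Fintype.card F) := Real.one_le_sqrt.2 h
  nlinarith

theorem of_two {S : ℂ} (h : ‖S‖ ≤ 2) : ‖S‖ ^ 2 ≤ 16 * Fintype.card F * √(Fintype.card F) := by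
  have h1 := card_bound (F := F)
  nlinarith [norm_nonneg S]

theorem of_seven {S : ℂ} (h : ‖S‖ ^ 2 ≤ 7 * Fintype.card F * √(Fintype.card F)) :
    ‖S‖ ^ 2 ≤ 16 * Fintype.card F * √(Fintype.card F) := by
  have h1 := card_bound (F := F)
  nlinarith

theorem of_seven_one {S T : ℂ} (h : ‖T‖ ^ 2 ≤ 7 * Fintype.card F * √(Fintype.card F))
    (hS : ‖S‖ ≤ ‖T‖ + 1) : ‖S‖ ^ 2 ≤ 16 * Fintype.card F * √(Fintype.card F) := by
  have h1 := card_bound (F := F)
  have h2 : ‖S‖ ^ 2 ≤ (‖T‖ + 1) ^ 2 := pow_le_pow_left₀ (norm_nonneg S) hS 2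
  have h3 : 2 * ‖T‖ ≤ ‖T‖ ^ 2 + 1 := by nlinarith [sq_nonneg (‖T‖ - 1)]
  nlinarith

/-- the sum for two points -/
theorem ort_sum (hO : ORT F) (χ : MulChar F ℂ) (hχ : χ ≠ 1) {u v : F} (huv : u ≠ v) :
    ∑ x, χ (x - u) * χ⁻¹ (x - v) = -1 := by
  have h := hO χ u v hχ
  rw [if_neg huv] at h
  rw [← h]
  refine Finset.sum_congr rfl fun x _ => ?_
  have h1 : x - u = (-1) * (u - x) := by ring
  have h2 : x - v = (-1) * (v - x) := by ring
  rw [conj_apply, h1, h2, map_mul, map_mul]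
  have h3 := inv_mul_apply χ (x := (-1 : F)) (by simp)
  linear_combination (χ (u - x) * χ⁻¹ (v - x)) * h3

theorem ort_bound (hO : ORT F) (χ : MulChar F ℂ) (hχ : χ ≠ 1) {u v w : F} (huv : u ≠ v)
    (g : F → ℂ) (hg : ∀ x, g x = if x = w then 0 else χ (x - u) * χ⁻¹ (x - v)) :
    ‖∑ x, g x‖ ≤ 2 := by
  have h0 : ∀ x, χ (x - u) * χ⁻¹ (x - v) =
      g x + (if x = w then χ (x - u) * χ⁻¹ (x - v) else 0) := by
    intro x
    rw [hg x]
    by_cases hx : x = w
    · rw [if_pos hx, if_pos hx, zero_add]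
    · rw [if_neg hx, if_neg hx, add_zero]
  have h1 : ∑ x, χ (x - u) * χ⁻¹ (x - v) = ∑ x, g x + χ (w - u) * χ⁻¹ (w - v) := by
    rw [Finset.sum_congr rfl fun x _ => h0 x, Finset.sum_add_distrib, Finset.sum_ite_eq',
      if_pos (Finset.mem_univ _)]
  have h2 : ∑ x, g x = -1 - χ (w - u) * χ⁻¹ (w - v) := by
    rw [← ort_sum hO χ hχ huv, h1]
    ring
  rw [h2]
  calc ‖-1 - χ (w - u) * χ⁻¹ (w - v)‖ ≤ ‖(-1 : ℂ)‖ + ‖χ (w - u) * χ⁻¹ (w - v)‖ := norm_sub_le _ _
    _ ≤ 1 + 1 := by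
      refine add_le_add (by simp) ?_
      rw [norm_mul]
      exact mul_le_one₀ (norm_le χ _) (norm_nonneg _) (norm_le χ⁻¹ _)
    _ = 2 := by norm_num

/-- shifted form of TRI2 -/
theorem tri_shift (hT : TRI2 F) (χ₁ χ₂ χ₃ : MulChar F ℂ) {r s t : F} (h2 : χ₂ ≠ 1) (h3 : χ₃ ≠ 1)
    (hrs : s ≠ r) (hrt : t ≠ r) (hst : s ≠ t) (g : F → ℂ)
    (hg : ∀ x, g x = χ₁ (x - r) * (χ₂ (x - s) * χ₃ (x - t))) :
    ‖∑ x, g x‖ ^ 2 ≤ 7 * Fintype.card F * √(Fintype.card F) := by
  have h := hT χ₁ χ₂ χ₃ (s - r) (t - r) h2 h3 (sub_ne_zero.2 hrs) (sub_ne_zero.2 hrt)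
    (fun h => hst (sub_left_injective h))
  have h4 : ∑ x, g x = ∑ x, χ₁ x * (χ₂ (x - (s - r)) * χ₃ (x - (t - r))) := by
    rw [← Equiv.sum_comp (Equiv.addRight r) g]
    refine Finset.sum_congr rfl fun x _ => ?_
    have e1 : (Equiv.addRight r) x = x + r := rfl
    have e2 : x + r - s = x - (s - r) := by ring
    have e3 : x + r - t = x - (t - r) := by ring
    rw [hg, e1, add_sub_cancel_right, e2, e3]
  rw [h4]
  exact h

theorem t_COR (hT : TRI2 F) (hO : ORT F) : COR F := by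
  intro χ s t s' t' hχ hst hst' h1 h2
  have hχi : χ⁻¹ ≠ 1 := fun h => hχ (inv_eq_one.1 h)
  have hsummand : ∀ x, (χ (x - s) * χ⁻¹ (x - t)) * (starRingEnd ℂ) (χ (x - s') * χ⁻¹ (x - t')) =
      χ (x - s) * χ⁻¹ (x - t) * (χ⁻¹ (x - s') * χ (x - t')) := by
    intro x
    rw [map_mul, conj_apply, conj_inv_apply]
  rw [Finset.sum_congr rfl fun x _ => hsummand x]
  by_cases c1 : s' = s
  · -- case 1
    have htt : t' ≠ t := fun h => h1 ⟨c1, h⟩
    refine of_two (ort_bound hO χ hχ (w := s) htt _ fun x => ?_)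
    by_cases hx : x = s
    · rw [if_pos hx, hx, sub_self, MulChar.map_zero]
      ring
    · rw [if_neg hx, c1]
      have h3 := inv_mul_apply χ (sub_ne_zero.2 hx)
      linear_combination (χ (x - t') * χ⁻¹ (x - t)) * h3
  by_cases c2 : t' = t
  · refine of_two (ort_bound hO χ hχ (u := s) (v := s') (w := t) (fun h => c1 h.symm) _
      fun x => ?_)
    by_cases hx : x = t
    · rw [if_pos hx, hx, sub_self, MulChar.map_zero]
      ring
    · rw [if_neg hx, c2]
      have h3 := inv_mul_apply χ (sub_ne_zero.2 hx)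
      linear_combination (χ (x - s) * χ⁻¹ (x - s')) * h3
  by_cases c3 : t' = s
  · have hts' : s' ≠ t := fun h => h2 ⟨h, c3⟩
    refine of_seven (tri_shift hT (χ * χ) χ⁻¹ χ⁻¹ (r := s) (s := t) (t := s') hχi hχi
      hst.symm c1 hts'.symm _ fun x => ?_)
    rw [c3, MulChar.mul_apply]
    ring
  by_cases c4 : s' = t
  · refine of_seven (tri_shift hT (χ⁻¹ * χ⁻¹) χ χ (r := t) (s := s) (t := t') hχ hχ
      hst c2 (fun h => c3 h.symm) _ fun x => ?_)
    rw [c4, MulChar.mul_apply]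
    ring
  -- all four different
  have ha : t' - s ≠ 0 := sub_ne_zero.2 c3
  have hb : t' - t ≠ 0 := sub_ne_zero.2 c2
  have hd : t' - s' ≠ 0 := sub_ne_zero.2 hst'.symm
  set g : F → ℂ := fun x => χ (x - s) * χ⁻¹ (x - t) * (χ⁻¹ (x - s') * χ (x - t')) with hgdef
  set h : F → ℂ := fun y => χ ((t' - s) * y + 1) * (χ⁻¹ ((t' - t) * y + 1) *
    χ⁻¹ ((t' - s') * y + 1)) with hhdef
  have hpt : ∀ y : F, g (t' + y⁻¹) = h y - if y = 0 then 1 else 0 := by
    intro y
    by_cases hy : y = 0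
    · rw [if_pos hy, hy]
      simp only [hgdef, hhdef, inv_zero, add_zero, sub_self, MulChar.map_zero, mul_zero, zero_add,
        MulChar.map_one, mul_one]
    · rw [if_neg hy, sub_zero]
      have e : ∀ u : F, t' + y⁻¹ - u = ((t' - u) * y + 1) * y⁻¹ := by
        intro u
        field_simp
        ring
      have e' : t' + y⁻¹ - t' = y⁻¹ := by ring
      simp only [hgdef, hhdef]
      rw [e', e s, e t, e s', map_mul, map_mul, map_mul]
      have h3 := inv_mul_apply χ (inv_ne_zero hy)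
      linear_combination (χ ((t' - s) * y + 1) * χ⁻¹ ((t' - t) * y + 1) *
        χ⁻¹ ((t' - s') * y + 1)) * (χ⁻¹ y⁻¹ * χ y⁻¹ + 1) * h3
  have hsum : ∑ x, g x = ∑ y, h y - 1 := by
    rw [← Equiv.sum_comp ((Equiv.inv F).trans (Equiv.addLeft t')) g]
    have e1 : ∀ y, g (((Equiv.inv F).trans (Equiv.addLeft t')) y) =
        h y - if y = 0 then 1 else 0 := fun y => hpt y
    rw [Finset.sum_congr rfl fun y _ => e1 y, Finset.sum_sub_distrib, Finset.sum_ite_eq',
      if_pos (Finset.mem_univ _)]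
  have hh : ∀ y, h y = (χ (t' - s) * (χ⁻¹ (t' - t) * χ⁻¹ (t' - s'))) *
      (χ (y - -(t' - s)⁻¹) * (χ⁻¹ (y - -(t' - t)⁻¹) * χ⁻¹ (y - -(t' - s')⁻¹))) := by
    intro y
    have e : ∀ u : F, u ≠ 0 → u * y + 1 = u * (y - -u⁻¹) := by
      intro u hu
      field_simp
      ring
    simp only [hhdef]
    rw [e _ ha, e _ hb, e _ hd, map_mul, map_mul, map_mul]
    ring
  have hT2 := tri_shift hT χ χ⁻¹ χ⁻¹ (r := -(t' - s)⁻¹) (s := -(t' - t)⁻¹) (t := -(t' - s')⁻¹)
    hχi hχi (fun h => hst (by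
      have := inv_injective (neg_injective h)
      exact (sub_right_injective this).symm)) (fun h => c1 (by
      have := inv_injective (neg_injective h)
      exact sub_right_injective this)) (fun h => c4 (by
      have := inv_injective (neg_injective h)
      exact (sub_right_injective this).symm)) _ (fun y => rfl)
  refine of_seven_one hT2 ?_
  rw [hsum, Finset.sum_congr rfl fun y _ => hh y, ← Finset.mul_sum]
  refine (norm_sub_le _ _).trans ?_
  rw [CStarRing.norm_one]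
  refine add_le_add ?_ le_rfl
  rw [norm_mul, norm_mul, norm_mul, norm_one χ ha, norm_one χ⁻¹ hb, norm_one χ⁻¹ hd]
  simp

end

end Pool.Agent.Helper13.CO
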